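import Pool.Agent.L0h32.UX.Stm

/-!
# Project UX (helper32): the module BDG, by helper60

The number of the bad weight functions: a path is the set of its edges.
-/

set_option autoImplicit false
set_option linter.all false

namespace Pool.Agent.L0h60.UX

open Pool.Agent.L0h32.UX

section paths

variable {P : Type} (S : P → Prop) (Eg : ℕ → P → P → Prop) (wt : ℕ → P → P → ℕ)

/-- `π` is a path to `z` in the layer `l`. -/
def IsPt (π : ℕ → P) (l : ℕ) (z : P) : Prop :=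
  S (π 0) ∧ (∀ j < l, Eg j (π j) (π (j + 1))) ∧ π l = z

/-- The weight of the path. -/
def wsum (π : ℕ → P) (l : ℕ) : ℕ := ∑ j ∈ Finset.range l, wt j (π j) (π (j + 1))

variable {S Eg wt}

theorem gpw_of {π : ℕ → P} : ∀ {l : ℕ} {z : P}, IsPt S Eg π l z → GPw S Eg wt l z (wsum wt π l)
  | 0, z, h => ⟨h.2.2 ▸ h.1, by simp [wsum]⟩
  | l + 1, z, h => by
    refine ⟨π l, wsum wt π l, gpw_of ⟨h.1, fun j hj => h.2.1 j (by omega), rfl⟩, ?_, ?_⟩
    · have h1 := h.2.1 l (by omega)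
      rw [h.2.2] at h1
      exact h1
    · unfold wsum
      rw [Finset.sum_range_succ, h.2.2]

/-- One more edge. -/
theorem step_pt {π : ℕ → P} {j : ℕ} {p p' : P} (hπ : IsPt S Eg π j p) (he : Eg j p p') :
    ∃ π' : ℕ → P, IsPt S Eg π' (j + 1) p' ∧ (∀ i ≤ j, π' i = π i) ∧
      wsum wt π' (j + 1) = wsum wt π j + wt j p p' := by
  have hag : ∀ i ≤ j, (fun i => if i = j + 1 then p' else π i) i = π i := by
    intro i hi
    have : i ≠ j + 1 := by omega
    simp [this]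
  refine ⟨fun i => if i = j + 1 then p' else π i, ⟨?_, ?_, ?_⟩, hag, ?_⟩
  · rw [hag 0 (Nat.zero_le _)]
    exact hπ.1
  · intro i hi
    rw [hag i (by omega)]
    rcases Nat.lt_or_ge i j with h | h
    · rw [hag (i + 1) (by omega)]
      exact hπ.2.1 i h
    · have hij : i = j := by omega
      subst hij
      simp only [if_true]
      rw [hπ.2.2]
      exact he
  · simp
  · unfold wsum
    rw [Finset.sum_range_succ]
    congr 1
    · refine Finset.sum_congr rfl fun i hi => ?_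
      have hi' := Finset.mem_range.1 hi
      rw [hag i (by omega), hag (i + 1) (by omega)]
    · rw [hag j le_rfl, hπ.2.2]
      simp

theorem exists_pt : ∀ {l : ℕ} {z : P} {v : ℕ}, GPw S Eg wt l z v →
    ∃ π : ℕ → P, IsPt S Eg π l z ∧ wsum wt π l = v
  | 0, z, v, h => ⟨fun _ => z, ⟨h.1, fun j hj => absurd hj (Nat.not_lt_zero _), rfl⟩, by
      rw [h.2]
      simp [wsum]⟩
  | l + 1, z, v, h => by
    obtain ⟨p, u, hp, he, hv⟩ := h
    obtain ⟨π, h1, h2⟩ := exists_pt hp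
    obtain ⟨π', h3, _, h4⟩ := step_pt (wt := wt) h1 he
    exact ⟨π', h3, by rw [h4, h2, hv]⟩

theorem ext_pt {j : ℕ} {p : P} {l : ℕ} {z : P} {r : ℕ} (h : GWp Eg wt j p l z r) :
    ∀ π : ℕ → P, IsPt S Eg π j p → ∃ π' : ℕ → P, IsPt S Eg π' l z ∧ π' j = p ∧
      (∀ i ≤ j, π' i = π i) ∧ wsum wt π' l = wsum wt π j + r ∧ j ≤ l := by
  induction h with
  | refl j p =>
    intro π hπ
    exact ⟨π, hπ, hπ.2.2, fun _ _ => rfl, rfl, le_rfl⟩
  | cons j l p p' q v he hw ih =>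
    intro π hπ
    obtain ⟨π₁, h1, h2, h3⟩ := step_pt (wt := wt) hπ he
    obtain ⟨π', h4, h5, h6, h7, h8⟩ := ih π₁ h1
    refine ⟨π', h4, ?_, ?_, ?_, by omega⟩
    · rw [h6 j (by omega), h2 j le_rfl]
      exact hπ.2.2
    · intro i hi
      rw [h6 i (by omega), h2 i hi]
    · rw [h7, h3]
      omega

/-- A vertex on a minimal path: the whole path. -/
theorem on_pt {j : ℕ} {p : P} {l : ℕ} {z : P} (h : GOn S Eg wt j p l z) :
    ∃ π : ℕ → P, IsPt S Eg π l z ∧ π j = p ∧ wsum wt π l = GDm S Eg wt l z := by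
  obtain ⟨v, r, hv, hr, hvr⟩ := h
  obtain ⟨π, h1, h2⟩ := exists_pt hv
  obtain ⟨π', h3, h4, _, h5, _⟩ := ext_pt hr π h1
  exact ⟨π', h3, h4, by rw [h5, h2, hvr]⟩

end paths

/-- Membership, whatever the instances are. -/
theorem mf {α : Type} {i : Fintype α} {p : α → Prop} {d : DecidablePred p} {a : α} (h : p a) :
    a ∈ @Finset.filter α p d (@Finset.univ α i) :=
  Finset.mem_filter.2 ⟨Finset.mem_univ _, h⟩

theorem mf' {α : Type} {i : Fintype α} {p : α → Prop} {d : DecidablePred p} {a : α}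
    (h : a ∈ @Finset.filter α p d (@Finset.univ α i)) : p a :=
  (Finset.mem_filter.1 h).2

section edges

variable {P : Type} [Fintype P]

open Classical in
/-- The edges of a path. -/
noncomputable def eds (N : ℕ) (π : ℕ → P) (l : ℕ) : Finset (Fin N × P × P) :=
  Finset.univ.filter fun e => (e.1 : ℕ) < l ∧ e.2.1 = π e.1 ∧ e.2.2 = π (e.1 + 1)

theorem mem_eds {N : ℕ} {π : ℕ → P} {l : ℕ} {e : Fin N × P × P} :
    e ∈ eds N π l ↔ (e.1 : ℕ) < l ∧ e.2.1 = π e.1 ∧ e.2.2 = π (e.1 + 1) := by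
  classical
  unfold eds
  rw [Finset.mem_filter]
  exact ⟨fun h => h.2, fun h => ⟨Finset.mem_univ _, h⟩⟩

theorem sum_eds {N R l : ℕ} (hl : l ≤ N) (π : ℕ → P) (ω : Fin N × P × P → Fin R) :
    ∑ e ∈ eds N π l, (ω e : ℕ) = wsum (wtF N R ω) π l := by
  symm
  refine Finset.sum_bij (fun j hj => ((⟨j, by
    have := Finset.mem_range.1 hj
    omega⟩ : Fin N), π j, π (j + 1))) ?_ ?_ ?_ ?_
  · intro j hj
    rw [mem_eds]
    exact ⟨Finset.mem_range.1 hj, rfl, rfl⟩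
  · intro j hj j' hj' h
    have h1 := congrArg (fun x : Fin N × P × P => (x.1 : ℕ)) h
    exact h1
  · rintro ⟨j, p, q⟩ he
    rw [mem_eds] at he
    obtain ⟨h1, h2, h3⟩ := he
    refine ⟨(j : ℕ), Finset.mem_range.2 h1, ?_⟩
    simp only at h2 h3
    rw [h2, h3]
  · intro j hj
    have hj' := Finset.mem_range.1 hj
    have hjN : j < N := by omega
    unfold wtF
    rw [dif_pos hjN]

open Classical in
/-- The edge sets of the paths to `z`. -/
noncomputable def PF (N l : ℕ) (z : P) (S : P → Prop) (Eg : ℕ → P → P → Prop) :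
    Finset (Finset (Fin N × P × P)) :=
  Finset.univ.filter fun A => ∃ π : ℕ → P, IsPt S Eg π l z ∧ A = eds N π l

theorem mem_PF {N l : ℕ} {z : P} {S : P → Prop} {Eg : ℕ → P → P → Prop}
    {A : Finset (Fin N × P × P)} :
    A ∈ PF N l z S Eg ↔ ∃ π : ℕ → P, IsPt S Eg π l z ∧ A = eds N π l := by
  classical
  unfold PF
  rw [Finset.mem_filter]
  exact ⟨fun h => h.2, fun h => ⟨Finset.mem_univ _, h⟩⟩

theorem bad_two {N R l : ℕ} (hl : l ≤ N) {z : P} {S : P → Prop}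
    {Eg : ℕ → P → P → Prop} {ω : Fin N × P × P → Fin R} (h2 : ¬ GUq S Eg (wtF N R ω) l z) :
    ∃ A ∈ PF N l z S Eg, ∃ B ∈ PF N l z S Eg, A ≠ B ∧
      (∀ C ∈ PF N l z S Eg, ∑ e ∈ A, (ω e : ℕ) ≤ ∑ e ∈ C, (ω e : ℕ)) ∧
      (∀ C ∈ PF N l z S Eg, ∑ e ∈ B, (ω e : ℕ) ≤ ∑ e ∈ C, (ω e : ℕ)) := by
  have h3 : ∃ j, j ≤ l ∧ ∃ p p', GOn S Eg (wtF N R ω) j p l z ∧ GOn S Eg (wtF N R ω) j p' l z ∧
      p ≠ p' := by
    by_contra hcon
    apply h2
    intro j hj p p' hp hp'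
    by_contra hne
    exact hcon ⟨j, hj, p, p', hp, hp', hne⟩
  obtain ⟨j, hj, p, p', hp, hp', hne⟩ := h3
  obtain ⟨π, a1, a2, a3⟩ := on_pt hp
  obtain ⟨π', b1, b2, b3⟩ := on_pt hp'
  have hmin : ∀ π₁ : ℕ → P, IsPt S Eg π₁ l z → GDm S Eg (wtF N R ω) l z ≤ wsum (wtF N R ω) π₁ l :=
    fun π₁ h => Nat.sInf_le (gpw_of h)
  have hjl : j < l := by
    refine lt_of_le_of_ne hj fun h => hne ?_
    rw [← a2, ← b2, h, a1.2.2, b1.2.2]
  refine ⟨eds N π l, mem_PF.2 ⟨π, a1, rfl⟩, eds N π' l, mem_PF.2 ⟨π', b1, rfl⟩, ?_, ?_, ?_⟩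
  · intro h
    have h3 : ((⟨j, by omega⟩ : Fin N), π j, π (j + 1)) ∈ eds N π l := mem_eds.2 ⟨hjl, rfl, rfl⟩
    rw [h, mem_eds] at h3
    apply hne
    rw [← a2, ← b2]
    exact h3.2.1
  · intro C hC
    obtain ⟨π₁, h4, rfl⟩ := mem_PF.1 hC
    rw [sum_eds hl, sum_eds hl, a3]
    exact hmin π₁ h4
  · intro C hC
    obtain ⟨π₁, h4, rfl⟩ := mem_PF.1 hC
    rw [sum_eds hl, sum_eds hl, b3]
    exact hmin π₁ h4

/-- The bound for one vertex. -/
theorem bad_lz (hISO : S_ISO) (N R l : ℕ) (hl : l ≤ N) (z : P) (S : P → Prop)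
    (Eg : ℕ → P → P → Prop) (s : Finset (Fin N × P × P → Fin R))
    (hs : ∀ ω ∈ s, ¬ GUq S Eg (wtF N R ω) l z) :
    s.card * R ≤ (N * Fintype.card P ^ 2) * R ^ (N * Fintype.card P ^ 2) := by
  have hc : Fintype.card (Fin N × P × P) = N * Fintype.card P ^ 2 := by
    rw [Fintype.card_prod, Fintype.card_prod, Fintype.card_fin, sq]
  have h1 := hISO (Fin N × P × P) R (PF N l z S Eg)
  rw [hc] at h1
  refine le_trans (Nat.mul_le_mul_right R (Finset.card_le_card ?_)) h1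
  intro ω hω
  exact mf (bad_two hl (hs ω hω))

end edges

theorem t_BDG (hISO : S_ISO) : S_BDG := by
  classical
  intro P _ N R S Eg
  have h1 : (Finset.univ.filter (fun ω : Fin N × P × P → Fin R =>
      ∃ l ≤ N, ∃ z, ¬ GUq S Eg (wtF N R ω) l z)).card ≤
      ∑ x ∈ (Finset.range (N + 1)) ×ˢ (Finset.univ : Finset P),
        (Finset.univ.filter (fun ω : Fin N × P × P → Fin R => ¬ GUq S Eg (wtF N R ω) x.1 x.2)).card := by
    refine le_trans (Finset.card_le_card ?_) Finset.card_biUnion_le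
    intro ω hω
    obtain ⟨l, hl, z, hz⟩ := mf' hω
    rw [Finset.mem_biUnion]
    exact ⟨(l, z), Finset.mem_product.2 ⟨Finset.mem_range.2 (by omega), Finset.mem_univ _⟩, mf hz⟩
  refine le_trans (Nat.mul_le_mul_right R h1) ?_
  rw [Finset.sum_mul]
  refine le_trans (Finset.sum_le_card_nsmul _ _ ((N * Fintype.card P ^ 2) *
    R ^ (N * Fintype.card P ^ 2)) ?_) ?_
  · rintro ⟨l, z⟩ hx
    rw [Finset.mem_product, Finset.mem_range] at hx
    refine bad_lz hISO N R l (by omega) z S Eg _ fun ω hω => ?_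
    exact mf' (p := fun ω => ¬ GUq S Eg (wtF N R ω) l z) hω
  · rw [Finset.card_product, Finset.card_range, Finset.card_univ, smul_eq_mul]
    apply le_of_eq
    ring

end Pool.Agent.L0h60.UX
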